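import Mathlib

set_option autoImplicit false

/-!
The formula `α_d(k) = (d + 1) / (k + 1)` fails for `d = k - 1`, for every `k ≥ 3`, and also for
`(k, d) = (4, 1), (4, 2), (5, 3)`.
-/

namespace Pool.Agent.Results.MP_f95752_co.FormulaFails

/-- `G` is `d`-degenerate: every nonempty set `T` of vertices contains a vertex with at most `d`
neighbours in `T` (every subgraph with a vertex has minimum degree at most `d`) -/
def Degenerate {V : Type} (G : SimpleGraph V) (d : ℕ) : Prop :=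
  ∀ T : Set V, T.Nonempty → ∃ v ∈ T, {u | u ∈ T ∧ G.Adj v u}.ncard ≤ d

/-- the degeneracy of `G` is exactly `k` -/
def HasDegeneracy {V : Type} (G : SimpleGraph V) (k : ℕ) : Prop :=
  Degenerate G k ∧ ∀ j < k, ¬ Degenerate G j

/-- `α_d(G)`: the largest number of vertices of a `d`-degenerate induced subgraph -/
noncomputable def alphaD (d : ℕ) {V : Type} (G : SimpleGraph V) : ℕ :=
  sSup {m | ∃ S : Set V, S.ncard = m ∧ Degenerate (G.induce S) d}

/-- `α_d(k)`: the infimum of `α_d(G) / |V(G)|` over the finite graphs `G` with degeneracy `k` -/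
noncomputable def alphaInf (d k : ℕ) : ℝ :=
  sInf {x : ℝ | ∃ (V : Type) (_ : Fintype V) (G : SimpleGraph V), HasDegeneracy G k ∧
    x = (alphaD d G : ℝ) / Fintype.card V}

open Finset

/-! ### General lemmas -/

lemma alphaInf_le {d k : ℕ} {V : Type} [Fintype V] (G : SimpleGraph V) (hG : HasDegeneracy G k) :
    alphaInf d k ≤ (alphaD d G : ℝ) / Fintype.card V := by
  refine csInf_le ⟨0, ?_⟩ ⟨V, inferInstance, G, hG, rfl⟩
  rintro x ⟨V, _, G, _, rfl⟩
  positivity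

lemma alphaD_le {V : Type} [Fintype V] [DecidableEq V] (G : SimpleGraph V) [DecidableRel G.Adj]
    {d a : ℕ} (h : ∀ S : Finset V, a < S.card → ∃ T ⊆ S, T.Nonempty ∧
      ∀ v ∈ T, d < (T.filter (fun u => G.Adj v u)).card) : alphaD d G ≤ a := by
  classical
  refine csSup_le' ?_
  rintro m ⟨S, hm, hS⟩
  by_contra hlt
  push Not at hlt
  obtain ⟨T, hTS, ⟨t, ht⟩, hT⟩ := h S.toFinset (by rw [← Set.ncard_eq_toFinset_card']; omega)
  have htS : ∀ {x}, x ∈ T → x ∈ S := fun hx => Set.mem_toFinset.1 (hTS hx)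
  obtain ⟨v, hv, hd⟩ := hS {x : S | x.1 ∈ T} ⟨⟨t, htS ht⟩, ht⟩
  have h1 := hT v.1 hv
  have h2 : Subtype.val '' {u : S | u ∈ {x : S | x.1 ∈ T} ∧ (G.induce S).Adj v u} =
      ((T.filter (fun u => G.Adj v.1 u) : Finset V) : Set V) := by
    ext u
    simp only [Set.mem_image, Set.mem_ofPred_eq, coe_filter]
    constructor
    · rintro ⟨w, ⟨hw1, hw2⟩, rfl⟩
      exact ⟨hw1, hw2⟩
    · rintro ⟨hu1, hu2⟩
      exact ⟨⟨u, htS hu1⟩, ⟨hu1, hu2⟩, rfl⟩
  have h3 := Set.ncard_image_of_injective {u : S | u ∈ {x : S | x.1 ∈ T} ∧ (G.induce S).Adj v u}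
    Subtype.val_injective
  rw [h2, Set.ncard_coe_finset] at h3
  omega

lemma not_degenerate {V : Type} [Fintype V] [DecidableEq V] (G : SimpleGraph V)
    [DecidableRel G.Adj] {k : ℕ} (T : Finset V) (hT : T.Nonempty)
    (h : ∀ v ∈ T, k ≤ (T.filter (fun u => G.Adj v u)).card) : ∀ j < k, ¬ Degenerate G j := by
  intro j hj hG
  obtain ⟨v, hv, hd⟩ := hG (T : Set V) hT
  have h1 := h v hv
  have h2 : {u | u ∈ (T : Set V) ∧ G.Adj v u} =
      ((T.filter (fun u => G.Adj v u) : Finset V) : Set V) := by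
    ext u
    simp
  rw [h2, Set.ncard_coe_finset] at hd
  omega

/-! ### The family -/

/-- a clique with `k` vertices, two nonadjacent vertices adjacent to all of the clique, and
`⌈k / 2⌉` pairwise nonadjacent vertices, each adjacent to the two vertices and to all but two
vertices of the clique -/
def fam (k : ℕ) : SimpleGraph (Fin k ⊕ (Bool ⊕ Fin ((k + 1) / 2))) where
  Adj x y :=
    match x, y with
    | .inl i, .inl j => i ≠ j
    | .inl _, .inr (.inl _) => True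
    | .inr (.inl _), .inl _ => True
    | .inl j, .inr (.inr i) => j.1 ≠ 2 * i.1 ∧ j.1 ≠ (2 * i.1 + 1) % k
    | .inr (.inr i), .inl j => j.1 ≠ 2 * i.1 ∧ j.1 ≠ (2 * i.1 + 1) % k
    | .inr (.inl _), .inr (.inr _) => True
    | .inr (.inr _), .inr (.inl _) => True
    | .inr (.inl _), .inr (.inl _) => False
    | .inr (.inr _), .inr (.inr _) => False
  symm := ⟨by
    rintro (i | b | i) (j | c | j) h
    · exact fun h' => h h'.symm
    · exact h
    · exact h
    · exact h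
    · exact h
    · exact h
    · exact h
    · exact h
    · exact h⟩
  loopless := ⟨by
    rintro (i | b | i) h
    · exact h rfl
    · exact h
    · exact h⟩

lemma fam_degenerate {k : ℕ} (hk : 3 ≤ k) : Degenerate (fam k) k := by
  classical
  intro T hT
  by_cases h1 : ∃ i, Sum.inr (Sum.inr i) ∈ T
  · obtain ⟨i, hi⟩ := h1
    refine ⟨_, hi, ?_⟩
    have hi2 := i.2
    have ha : 2 * i.1 < k := by omega
    have hb : (2 * i.1 + 1) % k < k := Nat.mod_lt _ (by omega)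
    have hab : 2 * i.1 ≠ (2 * i.1 + 1) % k := by
      by_cases h : 2 * i.1 + 1 < k
      · rw [Nat.mod_eq_of_lt h]; omega
      · have : 2 * i.1 + 1 = k := by omega
        rw [this, Nat.mod_self]; omega
    let A : Finset (Fin k) := (univ.erase ⟨2 * i.1, ha⟩).erase ⟨(2 * i.1 + 1) % k, hb⟩
    have hA : A.card = k - 2 := by
      rw [card_erase_of_mem (mem_erase.2 ⟨fun h => hab (Fin.mk.inj h).symm, mem_univ _⟩),
        card_erase_of_mem (mem_univ _), card_univ, Fintype.card_fin]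
      omega
    have hsub : {u | u ∈ T ∧ (fam k).Adj (Sum.inr (Sum.inr i)) u} ⊆
        ((A.image (fun j => (Sum.inl j : Fin k ⊕ (Bool ⊕ Fin ((k + 1) / 2)))) ∪
          {Sum.inr (Sum.inl true), Sum.inr (Sum.inl false)} : Finset _) : Set _) := by
      rintro (j | b | j) ⟨_, hu⟩
      · obtain ⟨h2, h3⟩ := hu
        rw [coe_union, Set.mem_union]
        left
        rw [mem_coe, mem_image]
        exact ⟨j, mem_erase.2 ⟨fun h => h3 (congrArg Fin.val h),
          mem_erase.2 ⟨fun h => h2 (congrArg Fin.val h), mem_univ _⟩⟩, rfl⟩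
      · rw [coe_union, Set.mem_union]
        right
        rw [mem_coe, mem_insert, mem_singleton]
        cases b
        · exact Or.inr rfl
        · exact Or.inl rfl
      · exact hu.elim
    refine (Set.ncard_le_ncard hsub (Finset.finite_toSet _)).trans ?_
    rw [Set.ncard_coe_finset]
    refine (card_union_le _ _).trans ?_
    have h4 : (A.image (fun j => (Sum.inl j : Fin k ⊕ (Bool ⊕ Fin ((k + 1) / 2))))).card ≤ k - 2 :=
      card_image_le.trans hA.le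
    have h5 : ({Sum.inr (Sum.inl true), Sum.inr (Sum.inl false)} :
      Finset (Fin k ⊕ (Bool ⊕ Fin ((k + 1) / 2)))).card ≤ 2 := card_le_two
    omega
  · push Not at h1
    obtain ⟨v, hv, hvN⟩ : ∃ v ∈ T, {u | u ∈ T ∧ (fam k).Adj v u} ⊆
        (((univ : Finset (Fin k)).image (fun j => (Sum.inl j : Fin k ⊕ (Bool ⊕
          Fin ((k + 1) / 2)))) : Finset _) : Set _) := by
      by_cases h2 : ∃ b, Sum.inr (Sum.inl b) ∈ T
      · obtain ⟨b, hb⟩ := h2
        refine ⟨_, hb, ?_⟩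
        rintro (j | c | j) ⟨hu, hu'⟩
        · rw [mem_coe, mem_image]
          exact ⟨j, mem_univ _, rfl⟩
        · exact hu'.elim
        · exact absurd hu (h1 j)
      · push Not at h2
        obtain ⟨v, hv⟩ := hT
        refine ⟨v, hv, ?_⟩
        rintro (j | c | j) ⟨hu, hu'⟩
        · rw [mem_coe, mem_image]
          exact ⟨j, mem_univ _, rfl⟩
        · exact absurd hu (h2 c)
        · exact absurd hu (h1 j)
    refine ⟨v, hv, (Set.ncard_le_ncard hvN (Finset.finite_toSet _)).trans ?_⟩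
    rw [Set.ncard_coe_finset]
    refine card_image_le.trans ?_
    rw [card_univ, Fintype.card_fin]

/-- the cliques with `k + 1` vertices -/
lemma fam_clique {k : ℕ} (b : Bool) : ∃ T : Finset (Fin k ⊕ (Bool ⊕ Fin ((k + 1) / 2))),
    Sum.inr (Sum.inl b) ∈ T ∧ (∀ x ∈ T, (∃ i, x = Sum.inl i) ∨ x = Sum.inr (Sum.inl b)) ∧
    ∀ (_ : DecidableRel (fam k).Adj), ∀ v ∈ T, k ≤ (T.filter (fun u => (fam k).Adj v u)).card := by
  classical
  refine ⟨insert (Sum.inr (Sum.inl b)) (univ.image Sum.inl), mem_insert_self _ _, ?_, ?_⟩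
  · intro x hx
    rw [mem_insert, mem_image] at hx
    rcases hx with rfl | ⟨i, -, rfl⟩
    · exact Or.inr rfl
    · exact Or.inl ⟨i, rfl⟩
  · intro _ v hv
    have hc : (insert (Sum.inr (Sum.inl b)) (univ.image Sum.inl) :
        Finset (Fin k ⊕ (Bool ⊕ Fin ((k + 1) / 2)))).card = k + 1 := by
      rw [card_insert_of_notMem, card_image_of_injective _ Sum.inl_injective, card_univ,
        Fintype.card_fin]
      intro h
      rw [mem_image] at h
      obtain ⟨i, -, hi⟩ := h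
      exact absurd hi (by simp)
    have hsub : (insert (Sum.inr (Sum.inl b)) (univ.image Sum.inl) :
        Finset (Fin k ⊕ (Bool ⊕ Fin ((k + 1) / 2)))).erase v ⊆
        (insert (Sum.inr (Sum.inl b)) (univ.image Sum.inl) :
        Finset (Fin k ⊕ (Bool ⊕ Fin ((k + 1) / 2)))).filter (fun u => (fam k).Adj v u) := by
      intro u hu
      rw [mem_erase] at hu
      refine mem_filter.2 ⟨hu.2, ?_⟩
      obtain ⟨hne, hu⟩ := hu
      rw [mem_insert, mem_image] at hv hu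
      rcases hv with rfl | ⟨i, -, rfl⟩ <;> rcases hu with rfl | ⟨j, -, rfl⟩
      · exact absurd rfl hne
      · trivial
      · trivial
      · exact fun h => hne (by rw [h])
    have h1 := card_le_card hsub
    rw [card_erase_of_mem hv, hc] at h1
    simpa using h1

lemma card_ge {V : Type} [DecidableEq V] (G : SimpleGraph V) [DecidableRel G.Adj] {k : ℕ}
    {T : Finset V} (hT : T.card = k + 2) {v w : V} (h : ∀ y ∈ T, y ≠ v → y ≠ w → G.Adj v y) :
    k ≤ (T.filter (fun u => G.Adj v u)).card := by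
  have hsub : (T.erase v).erase w ⊆ T.filter (fun u => G.Adj v u) := by
    intro u hu
    rw [mem_erase, mem_erase] at hu
    exact mem_filter.2 ⟨hu.2.2, h u hu.2.2 hu.2.1 hu.1⟩
  have h1 := card_le_card hsub
  have h2 := pred_card_le_card_erase (s := T.erase v) (a := w)
  have h3 := pred_card_le_card_erase (s := T) (a := v)
  omega

/-- the dense sets avoiding a vertex of the clique -/
lemma fam_core {k : ℕ} (hk : 3 ≤ k) (j : Fin k) :
    ∃ T : Finset (Fin k ⊕ (Bool ⊕ Fin ((k + 1) / 2))), T.Nonempty ∧ Sum.inl j ∉ T ∧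
    ∀ (_ : DecidableRel (fam k).Adj), ∀ v ∈ T, k ≤ (T.filter (fun u => (fam k).Adj v u)).card := by
  classical
  have hj := j.2
  let w : Fin ((k + 1) / 2) := ⟨j.1 / 2, by omega⟩
  have hw : w.1 = j.1 / 2 := rfl
  let T : Finset (Fin k ⊕ (Bool ⊕ Fin ((k + 1) / 2))) :=
    (univ.erase j).image Sum.inl ∪ {Sum.inr (Sum.inl true), Sum.inr (Sum.inl false),
      Sum.inr (Sum.inr w)}
  have hTl : ∀ i, Sum.inl i ∈ T ↔ i ≠ j := by
    intro i
    simp [T]
  have hTb : ∀ b, Sum.inr (Sum.inl b) ∈ T := by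
    intro b
    cases b <;> simp [T]
  have hTr : ∀ i, Sum.inr (Sum.inr i) ∈ T ↔ i = w := by
    intro i
    simp [T]
  have hTc : T.card = k + 2 := by
    have h1 : ({Sum.inr (Sum.inl true), Sum.inr (Sum.inl false), Sum.inr (Sum.inr w)} :
        Finset (Fin k ⊕ (Bool ⊕ Fin ((k + 1) / 2)))).card = 3 := by
      rw [card_insert_of_notMem (by simp), card_insert_of_notMem (by simp), card_singleton]
    have h2 : Disjoint ((univ.erase j).image (Sum.inl : Fin k → Fin k ⊕ (Bool ⊕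
        Fin ((k + 1) / 2)))) {Sum.inr (Sum.inl true), Sum.inr (Sum.inl false),
          Sum.inr (Sum.inr w)} := by
      rw [Finset.disjoint_left]
      intro x hx hx'
      rw [mem_image] at hx
      obtain ⟨i, -, rfl⟩ := hx
      simp at hx'
    change (((univ.erase j).image (Sum.inl : Fin k → Fin k ⊕ (Bool ⊕
        Fin ((k + 1) / 2)))) ∪ {Sum.inr (Sum.inl true), Sum.inr (Sum.inl false),
          Sum.inr (Sum.inr w)}).card = k + 2
    rw [card_union_of_disjoint h2, h1, card_image_of_injective _ Sum.inl_injective,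
      card_erase_of_mem (mem_univ _), card_univ, Fintype.card_fin]
    omega
  have hother : j.1 = 2 * w.1 ∨ j.1 = (2 * w.1 + 1) % k := by
    rcases Nat.even_or_odd' j.1 with ⟨q, hq | hq⟩
    · left; omega
    · right
      have : j.1 / 2 = q := by omega
      rw [hw, this, ← hq, Nat.mod_eq_of_lt hj]
  clear_value T
  refine ⟨T, ⟨_, hTb true⟩, fun h => (hTl j).1 h rfl, ?_⟩
  rintro _ (i | b | i) hv
  · refine card_ge _ hTc (w := Sum.inr (Sum.inr w)) ?_
    rintro (i' | b' | i') hy hne hne'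
    · exact fun h => hne (by rw [h])
    · trivial
    · rw [hTr] at hy
      exact absurd (by rw [hy]) hne'
  · refine card_ge _ hTc (w := Sum.inr (Sum.inl (!b))) ?_
    rintro (i' | b' | i') hy hne hne'
    · trivial
    · exfalso
      cases b <;> cases b' <;> simp at hne hne'
    · trivial
  · have hiw : i = w := (hTr i).1 hv
    subst hiw
    -- the other vertex which is missed
    have hkpos : 0 < k := by omega
    obtain ⟨z, hz⟩ : ∃ z : Fin k, ∀ i' : Fin k, i' ≠ j → i' ≠ z →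
        i'.1 ≠ 2 * w.1 ∧ i'.1 ≠ (2 * w.1 + 1) % k := by
      rcases hother with h | h
      · refine ⟨⟨(2 * w.1 + 1) % k, Nat.mod_lt _ hkpos⟩, fun i' h1 h2 => ⟨fun h3 => ?_, fun h3 => ?_⟩⟩
        · exact h1 (Fin.ext (h3.trans h.symm))
        · exact h2 (Fin.ext h3)
      · have hi2 := w.2
        refine ⟨⟨2 * w.1, by omega⟩, fun i' h1 h2 => ⟨fun h3 => ?_, fun h3 => ?_⟩⟩
        · exact h2 (Fin.ext h3)
        · exact h1 (Fin.ext (h3.trans h.symm))
    refine card_ge _ hTc (w := Sum.inl z) ?_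
    rintro (i' | b' | i') hy hne hne'
    · exact hz i' ((hTl i').1 hy) (fun h => hne' (by rw [h]))
    · trivial
    · rw [hTr] at hy
      exact absurd (by rw [hy]) hne

lemma fam_card (k : ℕ) : Fintype.card (Fin k ⊕ (Bool ⊕ Fin ((k + 1) / 2))) =
    k + 2 + (k + 1) / 2 := by
  simp
  ring

theorem fam_alpha {k : ℕ} (hk : 3 ≤ k) : HasDegeneracy (fam k) k ∧
    alphaD (k - 1) (fam k) ≤ k + (k + 1) / 2 := by
  classical
  constructor
  · refine ⟨fam_degenerate hk, ?_⟩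
    obtain ⟨T, h1, h2, h3⟩ := fam_clique (k := k) true
    exact not_degenerate (fam k) T ⟨_, h1⟩ (h3 inferInstance)
  · refine alphaD_le (fam k) fun S hS => ?_
    have hc : Sᶜ.card ≤ 1 := by
      rw [card_compl, fam_card]
      omega
    rw [card_le_one_iff_subset_singleton] at hc
    obtain ⟨x, hx⟩ := hc
    have hmem : ∀ y, y ≠ x → y ∈ S := by
      intro y hy
      by_contra h
      exact hy (mem_singleton.1 (hx (mem_compl.2 h)))
    have key : ∃ T : Finset (Fin k ⊕ (Bool ⊕ Fin ((k + 1) / 2))), T.Nonempty ∧ x ∉ T ∧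
        ∀ (_ : DecidableRel (fam k).Adj), ∀ v ∈ T,
          k ≤ (T.filter (fun u => (fam k).Adj v u)).card := by
      rcases x with j | b | i
      · exact fam_core hk j
      · obtain ⟨T, h1, h2, h3⟩ := fam_clique (k := k) (!b)
        refine ⟨T, ⟨_, h1⟩, fun h => ?_, h3⟩
        rcases h2 _ h with ⟨i, hi⟩ | h
        · simp at hi
        · simp at h
      · obtain ⟨T, h1, h2, h3⟩ := fam_clique (k := k) true
        refine ⟨T, ⟨_, h1⟩, fun h => ?_, h3⟩
        rcases h2 _ h with ⟨i, hi⟩ | h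
        · simp at hi
        · simp at h
    obtain ⟨T, h1, h2, h3⟩ := key
    refine ⟨T, fun y hy => hmem y (fun h => h2 (h ▸ hy)), h1, fun v hv => ?_⟩
    have := h3 inferInstance v hv
    omega

/-! ### Small graphs -/

/-- the graph on `Fin n` in which `i` is adjacent to the smaller vertices in the `i`-th list -/
def gr (n : ℕ) (B : List (List ℕ)) : SimpleGraph (Fin n) where
  Adj i j := i ≠ j ∧ (j.1 ∈ B.getD i.1 [] ∨ i.1 ∈ B.getD j.1 [])
  symm := ⟨fun _ _ h => ⟨h.1.symm, h.2.symm⟩⟩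
  loopless := ⟨fun _ h => h.1 rfl⟩

instance (n : ℕ) (B : List (List ℕ)) : DecidableRel (gr n B).Adj :=
  fun i j => inferInstanceAs (Decidable (i ≠ j ∧ (j.1 ∈ B.getD i.1 [] ∨ i.1 ∈ B.getD j.1 [])))

/-- the search through all sets without a subset in `L` -/
def go (L : List (List ℕ)) (a : ℕ) : ℕ → ℕ → ℕ → Bool
  | 0, _, c => decide (c ≤ a)
  | i + 1, m, c => go L a i m c && (L.any (fun t => t.all (fun j => (m ||| 2 ^ i).testBit j)) ||
      go L a i (m ||| 2 ^ i) (c + 1))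

lemma go_spec (L : List (List ℕ)) (a : ℕ) : ∀ (i m c : ℕ), go L a i m c = true →
    ∀ S : Finset ℕ, (∀ x ∈ S, x < i) →
      (∀ t ∈ L, ∃ j ∈ t, m.testBit j = false ∧ j ∉ S) → S.card + c ≤ a := by
  intro i
  induction i with
  | zero =>
    intro m c h S hS _
    have : S = ∅ := eq_empty_of_forall_notMem fun x hx => absurd (hS x hx) (Nat.not_lt_zero _)
    rw [this, card_empty, zero_add]
    simpa [go] using h
  | succ i ih =>
    intro m c h S hS hL
    rw [go, Bool.and_eq_true, Bool.or_eq_true] at h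
    obtain ⟨h1, h2⟩ := h
    by_cases hi : i ∈ S
    · have hbit : ∀ j, (m ||| 2 ^ i).testBit j = false ↔ m.testBit j = false ∧ j ≠ i := by
        intro j
        rw [Nat.testBit_or, Nat.testBit_two_pow, Bool.or_eq_false_iff, decide_eq_false_iff_not]
        exact ⟨fun h => ⟨h.1, fun h' => h.2 h'.symm⟩, fun h => ⟨h.1, fun h' => h.2 h'.symm⟩⟩
      rcases h2 with h2 | h2
      · exfalso
        rw [List.any_eq_true] at h2
        obtain ⟨t, ht, h3⟩ := h2
        rw [List.all_eq_true] at h3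
        obtain ⟨j, hj, h4, h5⟩ := hL t ht
        have h6 := h3 j hj
        have h7 : (m ||| 2 ^ i).testBit j = false := (hbit j).2 ⟨h4, fun h => h5 (h ▸ hi)⟩
        rw [h7] at h6
        exact Bool.false_ne_true h6
      · have h3 := ih (m ||| 2 ^ i) (c + 1) h2 (S.erase i) (fun x hx => by
          rw [mem_erase] at hx
          have := hS x hx.2
          omega) (fun t ht => by
            obtain ⟨j, hj, h4, h5⟩ := hL t ht
            exact ⟨j, hj, (hbit j).2 ⟨h4, fun h => h5 (h ▸ hi)⟩,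
              fun h => h5 (mem_of_mem_erase h)⟩)
        rw [card_erase_of_mem hi] at h3
        have : 0 < S.card := card_pos.2 ⟨i, hi⟩
        omega
    · exact ih m c h1 S (fun x hx => by
        have h3 := hS x hx
        have h4 : x ≠ i := fun h => hi (h ▸ hx)
        omega) hL

theorem spec {n k d a : ℕ} (B L : List (List ℕ)) (hn : 0 < n)
    (h1 : ∀ i : Fin n, (univ.filter (fun j => j < i ∧ (gr n B).Adj i j)).card ≤ k)
    (h2 : ∀ i : Fin n, k ≤ (univ.filter (fun j => (gr n B).Adj i j)).card)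
    (h3 : go L a n 0 0 = true)
    (h4 : ∀ t ∈ L, (∃ v : Fin n, v.1 ∈ t) ∧ (∀ j ∈ t, j < n) ∧ ∀ v : Fin n, v.1 ∈ t →
      d < (univ.filter (fun u : Fin n => u.1 ∈ t ∧ (gr n B).Adj v u)).card) :
    HasDegeneracy (gr n B) k ∧ alphaD d (gr n B) ≤ a := by
  classical
  constructor
  · constructor
    · intro T hT
      obtain ⟨v, hv, hmax⟩ := exists_max_image (univ.filter (fun v => v ∈ T)) id (by
        obtain ⟨x, hx⟩ := hT
        exact ⟨x, mem_filter.2 ⟨mem_univ _, hx⟩⟩)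
      rw [mem_filter] at hv
      refine ⟨v, hv.2, le_trans ?_ (h1 v)⟩
      rw [← Set.ncard_coe_finset]
      refine Set.ncard_le_ncard ?_ (Finset.finite_toSet _)
      rintro u ⟨hu, hadj⟩
      rw [mem_coe, mem_filter]
      refine ⟨mem_univ _, lt_of_le_of_ne (hmax u (mem_filter.2 ⟨mem_univ _, hu⟩)) ?_, hadj⟩
      exact fun h => (gr n B).loopless.irrefl v (by rw [h] at hadj; exact hadj)
    · refine not_degenerate (gr n B) univ ⟨⟨0, hn⟩, mem_univ _⟩ fun v _ => h2 v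
  · refine alphaD_le (gr n B) fun S hS => ?_
    by_contra hcon
    push Not at hcon
    have h5 := go_spec L a n 0 0 h3 (S.map Fin.valEmbedding) (fun x hx => by
      rw [mem_map] at hx
      obtain ⟨y, -, rfl⟩ := hx
      exact y.2) (fun t ht => by
        obtain ⟨⟨v, hv⟩, h7, h8⟩ := h4 t ht
        by_contra hcon2
        push Not at hcon2
        have h9 : ∀ j ∈ t, j ∈ S.map Fin.valEmbedding := fun j hj => hcon2 j hj (by simp)
        have hmem : ∀ x : Fin n, x.1 ∈ t → x ∈ S := by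
          intro x hx
          have h10 := h9 _ hx
          rw [mem_map] at h10
          obtain ⟨y, hy, h11⟩ := h10
          have h12 : y = x := Fin.ext h11
          exact h12 ▸ hy
        obtain ⟨x, hx, h10⟩ := hcon (univ.filter (fun u : Fin n => u.1 ∈ t)) (fun x hx =>
          hmem x (mem_filter.1 hx).2) ⟨v, mem_filter.2 ⟨mem_univ _, hv⟩⟩
        have h11 := h8 x (mem_filter.1 hx).2
        rw [filter_filter] at h10
        omega)
    rw [card_map] at h5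
    omega

/-- for each vertex, its smaller neighbours -/
def B41 : List (List ℕ) :=
  [[], [0], [0, 1], [0, 1, 2], [0, 1, 2, 3], [1, 2, 3, 4], [0, 2, 4, 5], [0, 2, 4, 6], [1, 3, 5,
  7], [1, 3, 5, 8], [6, 7, 8, 9], [0, 2, 4, 7], [0, 6, 10, 11]]

/-- sets of minimum degree greater than 1 -/
def L41 : List (List ℕ) :=
  [[0, 1, 2], [3, 4, 5], [6, 7, 10], [1, 8, 9], [0, 11, 12], [2, 4, 11], [0, 4, 7], [3, 8, 9],
  [1, 3, 8], [1, 3, 9], [6, 10, 12], [7, 8, 10], [1, 4, 5], [2, 7, 11], [0, 2, 3], [5, 8, 9],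
  [0, 4, 6], [4, 6, 7], [0, 6, 7], [1, 3, 5], [1, 5, 9], [3, 5, 9], [1, 5, 8], [3, 5, 8], [2, 4,
  7], [4, 7, 11], [8, 9, 10], [2, 4, 6], [6, 7, 11, 12], [0, 2, 4], [0, 7, 10, 12], [4, 6, 11,
  12], [0, 4, 11], [1, 2, 3], [0, 7, 11], [7, 10, 11, 12], [2, 6, 7], [0, 2, 11], [2, 6, 11,
  12], [1, 3, 4], [0, 2, 7], [0, 1, 4], [1, 2, 4], [0, 3, 4], [2, 3, 4], [1, 2, 5], [2, 3, 5],
  [2, 4, 5], [0, 1, 3], [0, 2, 6], [0, 1, 5, 6], [0, 3, 5, 6], [5, 6, 8, 10], [5, 6, 9, 10], [0,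
  1, 6, 8, 10], [1, 2, 6, 8, 10], [0, 3, 6, 8, 10], [2, 3, 6, 8, 10], [1, 4, 6, 8, 10], [3, 4,
  6, 8, 10], [0, 1, 6, 9, 10], [1, 2, 6, 9, 10], [0, 3, 6, 9, 10], [2, 3, 6, 9, 10], [1, 4, 6,
  9, 10], [3, 4, 6, 9, 10], [1, 2, 7, 9, 10], [2, 3, 7, 9, 10], [1, 4, 7, 9, 10], [3, 4, 7, 9,
  10], [2, 5, 7, 9, 10], [4, 5, 7, 9, 10], [0, 2, 5, 8, 10, 12], [0, 4, 5, 8, 10, 12], [0, 2, 5,
  9, 10, 12], [0, 4, 5, 9, 10, 12], [1, 2, 8, 10, 11, 12], [2, 3, 8, 10, 11, 12], [1, 4, 8, 10,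
  11, 12], [3, 4, 8, 10, 11, 12], [2, 5, 8, 10, 11, 12], [4, 5, 8, 10, 11, 12], [1, 2, 9, 10,
  11, 12], [2, 3, 9, 10, 11, 12], [1, 4, 9, 10, 11, 12], [3, 4, 9, 10, 11, 12], [2, 5, 9, 10,
  11, 12], [4, 5, 9, 10, 11, 12]]

lemma case41 : HasDegeneracy (gr 13 B41) 4 ∧ alphaD 1 (gr 13 B41) ≤ 5 :=
  spec B41 L41 (by norm_num) (by decide +kernel) (by decide +kernel) (by decide +kernel)
    (by decide +kernel)

/-- for each vertex, its smaller neighbours -/
def B42 : List (List ℕ) :=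
  [[], [0], [0, 1], [0, 1, 2], [0, 1, 2, 3], [0, 1, 2, 3], [0, 1, 2, 3], [3, 4, 5, 6], [4, 5, 6,
  7]]

/-- sets of minimum degree greater than 2 -/
def L42 : List (List ℕ) :=
  [[0, 1, 2, 3], [0, 1, 2, 4], [0, 1, 3, 4], [0, 2, 3, 4], [1, 2, 3, 4], [0, 3, 5, 6, 7], [3, 4,
  5, 7, 8], [0, 1, 2, 5], [1, 2, 3, 5], [3, 4, 6, 7, 8], [0, 1, 3, 5], [0, 2, 3, 5], [1, 3, 5,
  6, 7], [2, 3, 5, 6, 7], [0, 1, 2, 6], [0, 1, 3, 6], [0, 2, 3, 6], [1, 2, 3, 6], [0, 1, 4, 5,
  6, 7], [0, 2, 4, 5, 6, 7], [1, 2, 4, 5, 6, 7], [0, 1, 4, 5, 6, 8], [0, 2, 4, 5, 6, 8], [1, 2,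
  4, 5, 6, 8], [0, 3, 4, 5, 6, 8], [1, 3, 4, 5, 6, 8], [2, 3, 4, 5, 6, 8], [0, 1, 4, 5, 7, 8],
  [0, 2, 4, 5, 7, 8], [1, 2, 4, 5, 7, 8], [0, 1, 4, 6, 7, 8], [0, 2, 4, 6, 7, 8], [1, 2, 4, 6,
  7, 8], [0, 1, 5, 6, 7, 8], [0, 2, 5, 6, 7, 8], [1, 2, 5, 6, 7, 8], [0, 4, 5, 6, 7, 8], [1, 4,
  5, 6, 7, 8], [2, 4, 5, 6, 7, 8]]

lemma case42 : HasDegeneracy (gr 9 B42) 4 ∧ alphaD 2 (gr 9 B42) ≤ 5 :=
  spec B42 L42 (by norm_num) (by decide +kernel) (by decide +kernel) (by decide +kernel)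
    (by decide +kernel)

/-- for each vertex, its smaller neighbours -/
def B53 : List (List ℕ) :=
  [[], [0], [0, 1], [0, 1, 2], [0, 1, 2, 3], [0, 1, 2, 3, 4], [0, 1, 2, 3, 5], [0, 2, 3, 4, 6],
  [0, 2, 4, 5, 6], [1, 4, 5, 7, 8], [1, 3, 7, 8, 9]]

/-- sets of minimum degree greater than 3 -/
def L53 : List (List ℕ) :=
  [[0, 1, 2, 3, 4], [0, 2, 5, 6, 8], [0, 1, 3, 5, 6], [1, 2, 3, 4, 5], [0, 2, 3, 6, 7], [1, 3,
  4, 7, 9, 10], [0, 1, 2, 4, 5], [0, 2, 3, 4, 5], [0, 1, 4, 5, 8, 9], [0, 1, 2, 3, 5], [1, 2, 3,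
  5, 6], [3, 4, 5, 6, 7, 8, 9], [0, 1, 2, 7, 8, 9, 10], [0, 3, 5, 7, 8, 9, 10], [2, 3, 4, 7, 8,
  9, 10], [0, 1, 6, 7, 8, 9, 10], [0, 1, 2, 4, 6, 7], [0, 1, 3, 4, 6, 7], [0, 3, 4, 5, 6, 7],
  [2, 3, 4, 5, 6, 7], [1, 2, 4, 5, 6, 8], [1, 3, 5, 6, 8, 9, 10], [2, 3, 5, 7, 8, 9, 10], [1, 2,
  6, 7, 8, 9, 10], [0, 1, 3, 4, 5], [0, 1, 2, 3, 6], [0, 1, 2, 5, 6], [0, 2, 4, 5, 8], [1, 2, 3,
  4, 6, 7], [0, 2, 4, 5, 6, 7], [0, 1, 2, 4, 6, 8], [0, 2, 3, 4, 6, 8], [0, 1, 4, 5, 6, 8], [0,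
  3, 4, 5, 6, 8], [2, 3, 4, 5, 6, 8], [0, 2, 4, 6, 7, 8], [1, 2, 4, 5, 8, 9], [0, 1, 4, 5, 6, 7,
  9], [1, 2, 4, 5, 6, 7, 9], [0, 4, 5, 6, 7, 8, 9], [2, 4, 5, 6, 7, 8, 9], [0, 1, 3, 4, 8, 9,
  10], [1, 2, 3, 4, 8, 9, 10], [0, 3, 4, 7, 8, 9, 10], [1, 3, 4, 5, 6, 7, 8, 10], [1, 4, 5, 6,
  7, 8, 9, 10]]

lemma case53 : HasDegeneracy (gr 11 B53) 5 ∧ alphaD 3 (gr 11 B53) ≤ 7 :=
  spec B53 L53 (by norm_num) (by decide +kernel) (by decide +kernel) (by decide +kernel)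
    (by decide +kernel)

lemma alphaInf_le_of {d k a n : ℕ} {B : List (List ℕ)} (hn : 0 < n)
    (h : HasDegeneracy (gr n B) k ∧ alphaD d (gr n B) ≤ a) : alphaInf d k ≤ (a : ℝ) / n := by
  refine (alphaInf_le (gr n B) h.1).trans ?_
  rw [Fintype.card_fin]
  have h1 : (0 : ℝ) < n := by exact_mod_cast hn
  have h2 : (alphaD d (gr n B) : ℝ) ≤ a := by exact_mod_cast h.2
  exact div_le_div_of_nonneg_right h2 h1.le

/-- **Q1 is false.** (1) For every `k ≥ 3` the formula fails for `d = k - 1`: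
`α_{k-1}(k) ≤ 1 - 2 / (k + 2 + ⌈k / 2⌉) < k / (k + 1)`. (2) `α_1(4) ≤ 5 / 13 < 2 / 5`,
`α_2(4) ≤ 5 / 9 < 3 / 5` and `α_3(5) ≤ 7 / 11 < 4 / 6`. (3) Hence it is not true that
`α_d(k) = (d + 1) / (k + 1)` for all `k ≥ 3` and `0 ≤ d < k`. -/
theorem result :
    (∀ k : ℕ, 3 ≤ k →
      alphaInf (k - 1) k ≤ 1 - 2 / ((k + 2 + (k + 1) / 2 : ℕ) : ℝ) ∧
      1 - 2 / ((k + 2 + (k + 1) / 2 : ℕ) : ℝ) < (k : ℝ) / (k + 1)) ∧
    (alphaInf 1 4 ≤ 5 / 13 ∧ alphaInf 2 4 ≤ 5 / 9 ∧ alphaInf 3 5 ≤ 7 / 11) ∧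
    ¬ ∀ k d : ℕ, 3 ≤ k → d < k → alphaInf d k = ((d : ℝ) + 1) / (k + 1) := by
  have key : ∀ k : ℕ, 3 ≤ k →
      alphaInf (k - 1) k ≤ 1 - 2 / ((k + 2 + (k + 1) / 2 : ℕ) : ℝ) ∧
      1 - 2 / ((k + 2 + (k + 1) / 2 : ℕ) : ℝ) < (k : ℝ) / (k + 1) := by
    intro k hk
    obtain ⟨h1, h2⟩ := fam_alpha hk
    have h3 := alphaInf_le (d := k - 1) (fam k) h1
    rw [fam_card] at h3
    obtain ⟨x, hx⟩ : ∃ x, x = alphaD (k - 1) (fam k) := ⟨_, rfl⟩
    rw [← hx] at h2 h3
    clear hx h1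
    obtain ⟨m, hm⟩ : ∃ m, m = (k + 1) / 2 := ⟨_, rfl⟩
    rw [← hm] at h2 h3 ⊢
    have hm2 : m < k := by omega
    have h4 : (0 : ℝ) < ((k + 2 + m : ℕ) : ℝ) := by
      have : 0 < k + 2 + m := by omega
      exact_mod_cast this
    constructor
    · refine h3.trans ?_
      rw [div_le_iff₀ h4, sub_mul, one_mul, div_mul_cancel₀ _ h4.ne']
      have h5 : (x : ℝ) ≤ ((k + m : ℕ) : ℝ) := by exact_mod_cast h2
      push_cast at h5 ⊢
      linarith
    · have h5 : (0 : ℝ) < (k : ℝ) + 1 := by positivity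
      have h6 : (m : ℝ) < k := by exact_mod_cast hm2
      rw [lt_div_iff₀ h5, sub_mul, one_mul, div_mul_eq_mul_div, sub_lt_iff_lt_add, ← sub_lt_iff_lt_add',
        lt_div_iff₀ h4]
      push_cast
      nlinarith
  refine ⟨key, ⟨?_, ?_, ?_⟩, ?_⟩
  · exact_mod_cast alphaInf_le_of (by norm_num) case41
  · exact_mod_cast alphaInf_le_of (by norm_num) case42
  · exact_mod_cast alphaInf_le_of (by norm_num) case53
  · intro h
    have h1 := h 4 2 (by norm_num) (by norm_num)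
    have h2 : alphaInf 2 4 ≤ 5 / 9 := by exact_mod_cast alphaInf_le_of (by norm_num) case42
    rw [h1] at h2
    norm_num at h2

end Pool.Agent.Results.MP_f95752_co.FormulaFails
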